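import Pool.Agent.H370R2.Final
import Pool.Agent.H370R2.RightZeros

/-! Short intervals: the number of zeros. -/

open Complex Filter Topology Set MeasureTheory Metric

namespace H370.SI

open Loc

lemma log_integral' {T a b V1 V2 : ℝ} (hT : 10 ≤ T) (ha : T ≤ a) (hab : a + 3 ≤ b)
    (hb : b ≤ 2 * T) (h1 : a ≤ V1) (h2 : V1 ≤ a + 1) (h3 : b - 1 ≤ V2) (h4 : V2 ≤ b) :
    |(∫ y in V1..V2, Real.log y) - (b - a) * Real.log T| ≤ 3 * ((b - a) + (Real.log T) ^ 2) := by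
  have hV : V1 ≤ V2 := by linarith
  have hi : IntervalIntegrable Real.log volume V1 V2 := intervalIntegral.intervalIntegrable_log'
  have hlT : 1 ≤ Real.log T := by
    rw [Real.le_log_iff_exp_le (by linarith)]
    have := Real.exp_one_lt_d9
    linarith
  have hlow : Real.log T * (V2 - V1) ≤ ∫ y in V1..V2, Real.log y := by
    have := intervalIntegral.integral_mono_on (f := fun _ => Real.log T) hV (by simp) hi
      (fun y hy => Real.log_le_log (by linarith) ((ha.trans h1).trans hy.1))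
    rw [intervalIntegral.integral_const, smul_eq_mul] at this
    linarith
  have hup : ∫ y in V1..V2, Real.log y ≤ (Real.log T + 1) * (V2 - V1) := by
    have := intervalIntegral.integral_mono_on (g := fun _ => Real.log T + 1) hV hi (by simp)
      (fun y hy => by
        have e1 : Real.log y ≤ Real.log (2 * T) :=
          Real.log_le_log (by linarith [hy.1]) ((hy.2.trans h4).trans hb)
        rw [Real.log_mul (by norm_num) (by linarith)] at e1
        linarith [Real.log_two_lt_d9])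
    rw [intervalIntegral.integral_const, smul_eq_mul] at this
    linarith
  rw [abs_le]
  constructor
  · nlinarith
  · nlinarith

theorem nn_core {F : ℂ → ℂ} (hF : GoodL F) :
    ∃ C : ℝ, 0 < C ∧ ∀ T : ℝ, 10 ≤ T → ∀ a b : ℝ, T ≤ a → a + 3 ≤ b → b ≤ 2 * T →
      ∃ V1 V2 : ℝ, a ≤ V1 ∧ V1 ≤ a + 1 ∧ b - 1 ≤ V2 ∧ V2 ≤ b ∧
      |2 * Real.pi * (NN F V1 V2 : ℝ) - (b - a) * Real.log T| ≤
        C * ((b - a) + (Real.log T) ^ 2) := by
  obtain ⟨C, hC, hgood⟩ := good_height hF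
  obtain ⟨K, hK, hright⟩ := right_bound hF (3 / 2) (by norm_num)
  obtain ⟨CL, hleft⟩ := hF.left
  refine ⟨32 * C + 2 * K + |CL| + 3, by positivity, fun T hT a b ha hab hb => ?_⟩
  obtain ⟨V1, ⟨hV1, hV1'⟩, hg1⟩ := hgood a (by linarith)
  obtain ⟨V2, ⟨hV2, hV2'⟩, hg2⟩ := hgood (b - 1) (by linarith)
  have hV2' : V2 ≤ b := by linarith
  refine ⟨V1, V2, hV1, hV1', hV2, hV2', ?_⟩
  have hV : V1 < V2 := by linarith
  have him : ∀ s ∈ Set.Icc (-1 / 2 : ℝ) (3 / 2) ×ℂ Set.Icc V1 V2, 1 ≤ s.im := fun s hs => by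
    have : V1 ≤ s.im := hs.2.1
    linarith
  have hbd : ∀ s ∈ Set.Icc (-1 / 2 : ℝ) (3 / 2) ×ℂ Set.Icc V1 V2, F s = 0 →
      s ∈ Set.Ioo (-1 / 2 : ℝ) (3 / 2) ×ℂ Set.Ioo V1 V2 := by
    intro s hs h0
    have hs1 : (-1 / 2 : ℝ) ≤ s.re := hs.1.1
    have hs2 : s.re ≤ 3 / 2 := hs.1.2
    have hs3 : V1 ≤ s.im := hs.2.1
    have hs4 : s.im ≤ V2 := hs.2.2
    have i1 := him s hs
    have r1 : 0 < s.re := by
      by_contra h; push Not at h
      exact hF.nzl s h i1 h0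
    have r2 : s.re < 1 := by
      by_contra h; push Not at h
      exact hF.nzr s h i1 h0
    refine ⟨⟨by linarith, by linarith⟩, ⟨lt_of_le_of_ne hs3 ?_, lt_of_le_of_ne hs4 ?_⟩⟩
    · intro he
      apply (hg1 s.re ⟨hs1, hs2⟩).1
      rw [he]; exact h0
    · intro he
      apply (hg2 s.re ⟨hs1, hs2⟩).1
      rw [← he]; exact h0
  obtain ⟨-, hres⟩ := rect_residue F (fun _ => 1) (-1 / 2) (3 / 2) V1 V2 (by norm_num) hV
    (fun s hs => hF.an s (by linarith [him s hs])) (by fun_prop) hbd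
  have hset : {s : ℂ | s ∈ Set.Ioo (-1 / 2 : ℝ) (3 / 2) ×ℂ Set.Ioo V1 V2 ∧ F s = 0} =
      zset F V1 V2 := by
    ext s
    constructor
    · rintro ⟨hs, h0⟩
      have hs3 : V1 < s.im := hs.2.1
      have hs4 : s.im < V2 := hs.2.2
      have i1 : 1 ≤ s.im := by linarith
      refine ⟨?_, ?_, hs3, hs4.le, h0⟩
      · by_contra h; push Not at h
        exact hF.nzl s h i1 h0
      · by_contra h; push Not at h
        exact hF.nzr s h i1 h0
    · rintro ⟨h1, h2, h3, h4, h0⟩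
      exact ⟨hbd s ⟨⟨by linarith, by linarith⟩, ⟨h3.le, h4⟩⟩ h0, h0⟩
  have hN : ∑ᶠ s ∈ zset F V1 V2, (mult F s : ℂ) * 1 = (NN F V1 V2 : ℂ) := by
    rw [finsum_mem_eq_finite_toFinset_sum _ (zset_finite hF V1 V2 (by linarith)),
      NN_eq_sum hF V1 V2 (by linarith)]
    push_cast
    simp
  rw [hset, hN] at hres
  simp only [mul_one] at hres
  -- bounds on the sides
  have hlog2 : ∀ x : ℝ, 1 ≤ x → x ≤ 2 * T → C * (Real.log x) ^ 2 ≤
      4 * C * (Real.log T) ^ 2 := by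
    intro x hx hx2
    have h1 : Real.log x ≤ 2 * Real.log T := by
      have : Real.log x ≤ Real.log (T ^ 2) := Real.log_le_log (by linarith) (by nlinarith)
      rw [Real.log_pow] at this
      exact_mod_cast this
    have h0 : 0 ≤ Real.log x := Real.log_nonneg hx
    have h2 : (Real.log x) ^ 2 ≤ (2 * Real.log T) ^ 2 := pow_le_pow_left₀ h0 h1 2
    nlinarith
  have b1 : ‖∫ x in (-1 / 2 : ℝ)..(3 / 2), deriv F (⟨x, V1⟩ : ℂ) / F ⟨x, V1⟩‖ ≤
      4 * C * (Real.log T) ^ 2 * |(3 / 2 : ℝ) - (-1 / 2)| := by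
    refine intervalIntegral.norm_integral_le_of_norm_le_const fun x hx => ?_
    rw [Set.uIoc_of_le (by norm_num)] at hx
    exact ((hg1 x ⟨hx.1.le, hx.2⟩).2).trans (hlog2 a (by linarith) (by linarith))
  have b2 : ‖∫ x in (-1 / 2 : ℝ)..(3 / 2), deriv F (⟨x, V2⟩ : ℂ) / F ⟨x, V2⟩‖ ≤
      4 * C * (Real.log T) ^ 2 * |(3 / 2 : ℝ) - (-1 / 2)| := by
    refine intervalIntegral.norm_integral_le_of_norm_le_const fun x hx => ?_
    rw [Set.uIoc_of_le (by norm_num)] at hx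
    exact ((hg2 x ⟨hx.1.le, hx.2⟩).2).trans (hlog2 (b - 1) (by linarith) (by linarith))
  have b3 : ‖∫ y in V1..V2, deriv F (⟨3 / 2, y⟩ : ℂ) / F ⟨3 / 2, y⟩‖ ≤ K * |V2 - V1| := by
    refine intervalIntegral.norm_integral_le_of_norm_le_const fun y hy => ?_
    rw [Set.uIoc_of_le hV.le] at hy
    exact hright _ (by simp) (by simp only; linarith [hy.1])
  have b4 : ‖∫ y in V1..V2, (deriv F (⟨-1 / 2, y⟩ : ℂ) / F ⟨-1 / 2, y⟩ + (Real.log y : ℂ))‖ ≤
      (|CL| + K) * |V2 - V1| := by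
    refine intervalIntegral.norm_integral_le_of_norm_le_const fun y hy => ?_
    rw [Set.uIoc_of_le hV.le] at hy
    have hy1 : 1 ≤ y := by linarith [hy.1]
    have h1 := hleft ⟨-1 / 2, y⟩ le_rfl (by norm_num) hy1
      (hF.nzl _ (by norm_num) hy1)
    have hrf : (1 : ℂ) - (starRingEnd ℂ) (⟨-1 / 2, y⟩ : ℂ) = ⟨3 / 2, y⟩ := by
      apply Complex.ext <;> simp
      norm_num
    rw [hrf] at h1
    simp only at h1
    have h2 := hright ⟨3 / 2, y⟩ (by simp) hy1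
    calc _ = ‖(deriv F (⟨-1 / 2, y⟩ : ℂ) / F ⟨-1 / 2, y⟩ + (Real.log y : ℂ) +
        (starRingEnd ℂ) (deriv F (⟨3 / 2, y⟩ : ℂ) / F ⟨3 / 2, y⟩)) -
        (starRingEnd ℂ) (deriv F (⟨3 / 2, y⟩ : ℂ) / F ⟨3 / 2, y⟩)‖ := by congr 1; ring
      _ ≤ _ := (norm_sub_le _ _).trans (by
          rw [RCLike.norm_conj]
          exact add_le_add (h1.trans (le_abs_self CL)) h2)
  have hcont : IntervalIntegrable (fun y : ℝ => deriv F (⟨-1 / 2, y⟩ : ℂ) / F ⟨-1 / 2, y⟩)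
      volume V1 V2 := by
    apply ContinuousOn.intervalIntegrable
    rw [Set.uIcc_of_le hV.le]
    have hmk : Continuous fun y : ℝ => (⟨-1 / 2, y⟩ : ℂ) := by
      have : (fun y : ℝ => (⟨-1 / 2, y⟩ : ℂ)) = fun y : ℝ => ((-1 / 2 : ℝ) : ℂ) + y * I := by
        funext y
        apply Complex.ext <;> simp
      rw [this]; fun_prop
    intro y hy
    have hy1 : 1 ≤ y := by linarith [hy.1]
    have ha : AnalyticAt ℂ F (⟨-1 / 2, y⟩ : ℂ) := hF.an _ (by simp only; linarith)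
    have h1 : ContinuousAt (fun s : ℂ => deriv F s / F s) (⟨-1 / 2, y⟩ : ℂ) :=
      (ha.deriv.div ha (hF.nzl _ (by norm_num) hy1)).continuousAt
    exact (ContinuousAt.comp (f := fun y : ℝ => (⟨-1 / 2, y⟩ : ℂ)) h1
      hmk.continuousAt).continuousWithinAt
  have hlogi : IntervalIntegrable (fun y : ℝ => (Real.log y : ℂ)) volume V1 V2 := by
    apply ContinuousOn.intervalIntegrable
    rw [Set.uIcc_of_le hV.le]
    exact Complex.continuous_ofReal.comp_continuousOn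
      (Real.continuousOn_log.mono fun y hy => by
        have : 0 < y := by linarith [hy.1]
        exact this.ne')
  have hsplit : ∫ y in V1..V2, deriv F (⟨-1 / 2, y⟩ : ℂ) / F ⟨-1 / 2, y⟩ =
      (∫ y in V1..V2, (deriv F (⟨-1 / 2, y⟩ : ℂ) / F ⟨-1 / 2, y⟩ + (Real.log y : ℂ))) -
      ((∫ y in V1..V2, Real.log y : ℝ) : ℂ) := by
    rw [intervalIntegral.integral_add hcont hlogi, intervalIntegral.integral_ofReal]
    ring
  rw [hsplit] at hres
  set A1 := ∫ x in (-1 / 2 : ℝ)..(3 / 2), deriv F (⟨x, V1⟩ : ℂ) / F ⟨x, V1⟩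
  set A2 := ∫ x in (-1 / 2 : ℝ)..(3 / 2), deriv F (⟨x, V2⟩ : ℂ) / F ⟨x, V2⟩
  set B := ∫ y in V1..V2, deriv F (⟨3 / 2, y⟩ : ℂ) / F ⟨3 / 2, y⟩
  set E := ∫ y in V1..V2, (deriv F (⟨-1 / 2, y⟩ : ℂ) / F ⟨-1 / 2, y⟩ + (Real.log y : ℂ))
  set L := ∫ y in V1..V2, Real.log y with hL
  have hkey : ((2 * Real.pi * (NN F V1 V2 : ℝ) - L : ℝ) : ℂ) * I = A1 - A2 + I * B - I * E := by
    push_cast
    linear_combination -hres
  have hnorm : |2 * Real.pi * (NN F V1 V2 : ℝ) - L| ≤ ‖A1‖ + ‖A2‖ + ‖B‖ + ‖E‖ := by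
    have h1 : |2 * Real.pi * (NN F V1 V2 : ℝ) - L| =
        ‖((2 * Real.pi * (NN F V1 V2 : ℝ) - L : ℝ) : ℂ) * I‖ := by
      rw [norm_mul, Complex.norm_I, mul_one, Complex.norm_real, Real.norm_eq_abs]
    rw [h1, hkey]
    calc ‖A1 - A2 + I * B - I * E‖ ≤ ‖A1 - A2 + I * B‖ + ‖I * E‖ := norm_sub_le _ _
      _ ≤ (‖A1 - A2‖ + ‖I * B‖) + ‖I * E‖ := by gcongr; exact norm_add_le _ _
      _ ≤ ((‖A1‖ + ‖A2‖) + ‖I * B‖) + ‖I * E‖ := by gcongr; exact norm_sub_le _ _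
      _ = _ := by rw [norm_mul, norm_mul, Complex.norm_I]; ring
  have hLT := log_integral' (a := a) (b := b) hT ha hab hb hV1 hV1' hV2 hV2'
  rw [← hL] at hLT
  have hVV : |V2 - V1| ≤ b - a := by rw [abs_of_pos (by linarith)]; linarith
  have h2 : |(3 / 2 : ℝ) - (-1 / 2)| = 2 := by norm_num
  rw [h2] at b1 b2
  have b3' : ‖B‖ ≤ K * (b - a) := b3.trans (mul_le_mul_of_nonneg_left hVV hK)
  have b4' : ‖E‖ ≤ (|CL| + K) * (b - a) := b4.trans (mul_le_mul_of_nonneg_left hVV (by positivity))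
  have : |2 * Real.pi * (NN F V1 V2 : ℝ) - (b - a) * Real.log T| ≤
      |2 * Real.pi * (NN F V1 V2 : ℝ) - L| + |L - (b - a) * Real.log T| := abs_sub_le _ _ _
  have hba : 0 ≤ b - a := by linarith
  have hl2 : 0 ≤ (Real.log T) ^ 2 := sq_nonneg _
  have p1 : 0 ≤ C * (b - a) := by positivity
  have p2 : 0 ≤ K * (Real.log T) ^ 2 := by positivity
  have p3 : 0 ≤ |CL| * (Real.log T) ^ 2 := by positivity
  have p4 : 0 ≤ C * (Real.log T) ^ 2 := by positivity
  nlinarith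


theorem nn_short {F : ℂ → ℂ} (hF : GoodL F) :
    ∃ C : ℝ, 0 < C ∧ ∀ T : ℝ, 10 ≤ T → ∀ a b : ℝ, T ≤ a → a + 3 ≤ b → b ≤ 2 * T →
      |(NN F a b : ℝ) - (b - a) * Real.log T / (2 * Real.pi)| ≤
        C * ((b - a) + (Real.log T) ^ 2) := by
  obtain ⟨C, hC, hcore⟩ := nn_core hF
  obtain ⟨C0, hC0, hz⟩ := zcount hF
  refine ⟨C + 4 * C0, by positivity, fun T hT a b ha hab hb => ?_⟩
  obtain ⟨V1, V2, hV1, hV1', hV2, hV2', hc⟩ := hcore T hT a b ha hab hb
  have hpi : 1 ≤ 2 * Real.pi := by linarith [Real.pi_gt_three]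
  have hlT : 1 ≤ Real.log T := by
    rw [Real.le_log_iff_exp_le (by linarith)]
    have := Real.exp_one_lt_d9
    linarith
  have hloc : ∀ x : ℝ, T ≤ x → x ≤ 2 * T → Real.log x ≤ 2 * (Real.log T) ^ 2 := by
    intro x h1 h2
    have : Real.log x ≤ Real.log (T ^ 2) := Real.log_le_log (by linarith) (by nlinarith)
    rw [Real.log_pow] at this
    push_cast at this
    nlinarith
  have e0 : NN F a b = NN F a V1 + NN F V1 b :=
    NN_add hF (by linarith) (by linarith) (by linarith)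
  have e1 : NN F V1 b = NN F V1 V2 + NN F V2 b :=
    NN_add hF (by linarith) (by linarith) (by linarith)
  have z1 : (NN F a V1 : ℝ) ≤ 2 * C0 * (Real.log T) ^ 2 := by
    have h1 : NN F a V1 ≤ NN F (a - 1) (a + 1) := NN_mono hF (by linarith) (by linarith) hV1'
    have h2 := hz a (by linarith)
    have h3 : (NN F a V1 : ℝ) ≤ NN F (a - 1) (a + 1) := by exact_mod_cast h1
    have h4 := hloc a ha (by linarith)
    nlinarith
  have z2 : (NN F V2 b : ℝ) ≤ 2 * C0 * (Real.log T) ^ 2 := by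
    have h1 : NN F V2 b ≤ NN F (b - 1) (b + 1) :=
      NN_mono hF (by linarith) (by linarith) (by linarith)
    have h2 := hz b (by linarith)
    have h3 : (NN F V2 b : ℝ) ≤ NN F (b - 1) (b + 1) := by exact_mod_cast h1
    have h4 := hloc b (by linarith) hb
    nlinarith
  have e2 : (NN F a b : ℝ) = NN F a V1 + (NN F V1 V2 + NN F V2 b) := by
    exact_mod_cast e0.trans (by rw [e1])
  have hn1 : (0 : ℝ) ≤ NN F a V1 := Nat.cast_nonneg _
  have hn2 : (0 : ℝ) ≤ NN F V2 b := Nat.cast_nonneg _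
  have hba : 0 ≤ b - a := by linarith
  have hdiff : |(NN F a b : ℝ) - NN F V1 V2| ≤ 2 * (2 * C0 * (Real.log T) ^ 2) := by
    rw [abs_le]; constructor <;> linarith
  have hc2 : |(NN F V1 V2 : ℝ) - (b - a) * Real.log T / (2 * Real.pi)| * 6 ≤
      C * ((b - a) + (Real.log T) ^ 2) := by
    have h1 : (NN F V1 V2 : ℝ) - (b - a) * Real.log T / (2 * Real.pi) =
        (2 * Real.pi * (NN F V1 V2 : ℝ) - (b - a) * Real.log T) / (2 * Real.pi) := by
      field_simp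
    rw [h1, abs_div, abs_of_pos (show 0 < 2 * Real.pi by positivity)]
    refine le_trans ?_ hc
    rw [div_mul_eq_mul_div, div_le_iff₀ (by positivity)]
    have : 6 ≤ 2 * Real.pi := by linarith [Real.pi_gt_three]
    nlinarith [abs_nonneg (2 * Real.pi * (NN F V1 V2 : ℝ) - (b - a) * Real.log T)]
  have := abs_sub_le (NN F a b : ℝ) (NN F V1 V2) ((b - a) * Real.log T / (2 * Real.pi))
  have h0 := abs_nonneg ((NN F V1 V2 : ℝ) - (b - a) * Real.log T / (2 * Real.pi))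
  have p1 : 0 ≤ C0 * (b - a) := by positivity
  have p2 : 0 ≤ C * (b - a) := by positivity
  have p3 : 0 ≤ C * (Real.log T) ^ 2 := by positivity
  have p4 : 0 ≤ C0 * (Real.log T) ^ 2 := by positivity
  nlinarith

end H370.SI
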