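import Pool.Agent.H345R2.SI.Final

/-! The constant in closed form. -/

namespace H370.SI

theorem Rf_zero_eq : Rf 0 = (1 + Real.sin (Real.sqrt 2) / Real.sqrt 2) /
    (4 * Real.sin (1 / Real.sqrt 2) ^ 2) := by
  unfold Rf
  have h2 : Real.sqrt 2 ^ 2 = 2 := Real.sq_sqrt (by norm_num)
  rw [abs_zero, if_pos (by norm_num), mul_pow, h2]
  simp
  ring

theorem cc_eq (θ : ℝ) : cc θ = Rf 0 / θ + (cMTinv - Rf 0) * θ := by
  unfold cc
  have h := Rf_const
  rw [← h]
  ring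

end H370.SI
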