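import Pool.Agent.H345R2.SI.Main
import Pool.Agent.H370R2.Dyadic

/-! Short intervals: final form on `(T, T + H]`, `T ^ θ ≤ H ≤ T`. -/

open Complex Filter Topology Set MeasureTheory
open scoped BigOperators ComplexConjugate

namespace H370.SI

theorem rpow_small (θ : ℝ) (hθ0 : 0 < θ) (hθ : θ < 1) :
    ∃ T2 : ℝ, 1 ≤ T2 ∧ ∀ T : ℝ, T2 ≤ T → (2 * T) ^ θ ≤ T / 4 := by
  have h := tendsto_rpow_neg_atTop (y := 1 - θ) (by linarith)
  have h2 : ∀ᶠ x : ℝ in atTop, x ^ (-(1 - θ)) < 1 / 8 :=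
    h.eventually (gt_mem_nhds (by norm_num))
  obtain ⟨T2, hT2⟩ := (h2.and (eventually_ge_atTop 1)).exists_forall_of_atTop
  refine ⟨max T2 1, le_max_right _ _, fun T hT => ?_⟩
  obtain ⟨h3, h4⟩ := hT2 T ((le_max_left _ _).trans hT)
  have hT0 : 0 < T := by linarith
  have e1 : (2 * T) ^ θ = 2 ^ θ * T ^ θ := Real.mul_rpow (by norm_num) hT0.le
  have e2 : T ^ θ = T ^ (-(1 - θ)) * T := by
    conv_rhs => rw [← Real.rpow_add_one hT0.ne']
    congr 1; ring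
  have e3 : (2 : ℝ) ^ θ ≤ 2 := by
    calc (2 : ℝ) ^ θ ≤ 2 ^ (1 : ℝ) := Real.rpow_le_rpow_of_exponent_le (by norm_num) hθ.le
      _ = 2 := Real.rpow_one 2
  have e4 : 0 < T ^ θ := Real.rpow_pos_of_pos hT0 _
  rw [e1]
  have e5 : T ^ θ ≤ T / 8 := by rw [e2]; nlinarith
  nlinarith

theorem short_final {F : ℂ → ℂ} (hF : GoodL F) (θ ε : ℝ) (hθ0 : 0 < θ) (hθ : θ < 1)
    (hε : 0 < ε) : ∃ T0 : ℝ, 10 ≤ T0 ∧ ∀ T : ℝ, T0 ≤ T → ∀ H : ℝ, T ^ θ ≤ H → H ≤ T →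
      (2 - cc θ - ε) * (NN F T (T + H) : ℝ) ≤ Ns F T (T + H) ∧
      ((3 - cc θ) / 2 - ε) * (NN F T (T + H) : ℝ) ≤ Nd F T (T + H) := by
  obtain ⟨T1, hT1, hmain⟩ := short_main hF θ ε hθ0 hθ.le hε
  obtain ⟨T2, hT2, hsm⟩ := rpow_small θ hθ0 hθ
  have piece : ∀ A : ℝ, 2 * T1 ≤ A → ∀ h : ℝ, A ^ θ ≤ h → h ≤ A / 2 →
      (2 - cc θ - ε) * (NN F A (A + h) : ℝ) ≤ Ns F A (A + h) ∧
      ((3 - cc θ) / 2 - ε) * (NN F A (A + h) : ℝ) ≤ Nd F A (A + h) := by
    intro A hA h h1 h2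
    refine hmain (4 / 5 * A) (by linarith) A (A + h) (by linarith) (by linarith) ?_
    calc (4 / 5 * A) ^ θ ≤ A ^ θ := Real.rpow_le_rpow (by linarith) (by linarith) hθ0.le
      _ ≤ h := h1
      _ = A + h - A := by ring
  refine ⟨max (2 * T1) T2, (by linarith : (10 : ℝ) ≤ 2 * T1).trans (le_max_left _ _),
    fun T hT H hH1 hH2 => ?_⟩
  have ha : 2 * T1 ≤ T := (le_max_left _ _).trans hT
  have hb : T2 ≤ T := (le_max_right _ _).trans hT
  have hTp : 0 < T := by linarith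
  have hT1' : 1 ≤ T := by linarith
  by_cases hc : H ≤ T / 2
  · exact piece T ha H hH1 hc
  · push Not at hc
    have hs := hsm T hb
    have hp1 := piece T ha (H / 2) (by
      calc T ^ θ ≤ (2 * T) ^ θ := Real.rpow_le_rpow hTp.le (by linarith) hθ0.le
        _ ≤ T / 4 := hs
        _ ≤ H / 2 := by linarith) (by linarith)
    have hp2 := piece (T + H / 2) (by linarith) (H / 2) (by
      calc (T + H / 2) ^ θ ≤ (2 * T) ^ θ := Real.rpow_le_rpow (by linarith) (by linarith) hθ0.le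
        _ ≤ T / 4 := hs
        _ ≤ H / 2 := by linarith) (by linarith)
    have e : T + H / 2 + H / 2 = T + H := by ring
    rw [e] at hp2
    have hN := NN_add hF hT1' (show T ≤ T + H / 2 by linarith) (show T + H / 2 ≤ T + H by linarith)
    have hS := Ns_add hF hT1' (show T ≤ T + H / 2 by linarith) (show T + H / 2 ≤ T + H by linarith)
    have hD := Nd_add hF hT1' (show T ≤ T + H / 2 by linarith) (show T + H / 2 ≤ T + H by linarith)
    rw [hN, hS, hD]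
    push_cast
    obtain ⟨p1, p2⟩ := hp1
    obtain ⟨q1, q2⟩ := hp2
    constructor
    · nlinarith
    · nlinarith

end H370.SI
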