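import Pool.Agent.H345R2.SI.PC

/-! Short intervals: critical zeros. -/

open Complex Filter Topology Set MeasureTheory
open scoped BigOperators ComplexConjugate

namespace H370.SI

/-- the constant at bandwidth `r` -/
noncomputable def cc (r : ℝ) : ℝ := Rf 0 / r + 2 * r * ∫ α in (0 : ℝ)..1, α * Rf α

theorem short_main {F : ℂ → ℂ} (hF : GoodL F) (r ε : ℝ) (hr : 0 < r) (hr1 : r ≤ 1)
    (hε : 0 < ε) : ∃ T0 : ℝ, 10 ≤ T0 ∧ ∀ T : ℝ, T0 ≤ T →
    ∀ A B : ℝ, T + 1 ≤ A → B ≤ 2 * T - 1 → T ^ r ≤ B - A →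
      (2 - cc r - ε) * (NN F A B : ℝ) ≤ Ns F A B ∧
      ((3 - cc r) / 2 - ε) * (NN F A B : ℝ) ≤ Nd F A B := by
  set J : ℝ := ∫ α in (0 : ℝ)..1, α * Rf α with hJ
  have hJ0 : 0 ≤ J := Jint_nonneg
  have hR0 : 0 ≤ Rf 0 := Rf_nonneg 0
  have hcc0 : 0 ≤ cc r := by
    unfold cc
    have : 0 ≤ Rf 0 / r := by positivity
    have : 0 ≤ 2 * r * J := by positivity
    linarith
  set η : ℝ := min (ε / 80) (1 / 80) with hη
  have hη0 : 0 < η := lt_min (by positivity) (by norm_num)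
  have hη1 : η ≤ ε / 80 := min_le_left _ _
  have hη2 : η ≤ 1 / 80 := min_le_right _ _
  set δ : ℝ := min (1 / 4) (ε * r / (8 * (Rf 0 + 1))) with hδ
  have hδ0 : 0 < δ := lt_min (by norm_num) (by positivity)
  have hδ1 : δ ≤ 1 / 4 := min_le_left _ _
  have hδ2 : δ * (8 * (Rf 0 + 1)) ≤ ε * r := by
    have := min_le_right (1 / 4 : ℝ) (ε * r / (8 * (Rf 0 + 1)))
    rw [← hδ, le_div_iff₀ (by positivity)] at this
    exact this
  obtain ⟨T0, hT0, hPC⟩ := pair_short hF r δ η hr hr1 hδ0 (by linarith) hη0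
  refine ⟨T0, hT0, fun T hT A B hA hB hAB => ?_⟩
  obtain ⟨hNN, hQQ⟩ := hPC T hT A B hA hB hAB
  have hT10 : 10 ≤ T := hT0.trans hT
  have hU : 1 ≤ A := by linarith
  have hL : 0 < Real.log T := Real.log_pos (by linarith)
  have hTr : 0 < T ^ r := Real.rpow_pos_of_pos (by linarith) r
  have hH : 0 < B - A := by linarith
  have hpi := Real.pi_pos
  have hpi2 : Real.pi < 3.15 := Real.pi_lt_d2
  set M : ℝ := (B - A) * Real.log T / (2 * Real.pi) with hM
  have hM0 : 0 < M := by positivity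
  have hHL : (B - A) * Real.log T = 2 * Real.pi * M := by rw [hM]; field_simp
  rw [hHL] at hNN
  have hηM : η * (2 * Real.pi * M) ≤ (7 * η) * M := by
    have : 2 * Real.pi ≤ 7 := by linarith
    calc η * (2 * Real.pi * M) = (η * M) * (2 * Real.pi) := by ring
      _ ≤ (η * M) * 7 := by
        apply mul_le_mul_of_nonneg_left this (by positivity)
      _ = (7 * η) * M := by ring
  obtain ⟨hNNl, hNNu⟩ := abs_le.mp hNN
  have h1δ : 1 / ((1 - δ) * r) ≤ (1 + 2 * δ) / r := by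
    have hd : 1 ≤ (1 + 2 * δ) * (1 - δ) := by nlinarith
    rw [div_le_div_iff₀ (by nlinarith) hr]
    nlinarith [mul_le_mul_of_nonneg_right hd hr.le]
  have hQ2 : QQ F ((1 - δ) * (r * Real.log T)) A B ≤ M * (cc r + ε / 4 + η) := by
    refine hQQ.trans ?_
    apply mul_le_mul_of_nonneg_left _ hM0.le
    have h3 : Rf 0 / ((1 - δ) * r) ≤ Rf 0 / r + ε / 4 := by
      rw [div_eq_mul_one_div]
      calc Rf 0 * (1 / ((1 - δ) * r)) ≤ Rf 0 * ((1 + 2 * δ) / r) :=
            mul_le_mul_of_nonneg_left h1δ hR0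
        _ = Rf 0 / r + 2 * δ * Rf 0 / r := by ring
        _ ≤ Rf 0 / r + ε / 4 := by
          have : 2 * δ * Rf 0 / r ≤ ε / 4 := by
            rw [div_le_iff₀ hr]
            nlinarith
          linarith
    have h2 : 2 * ((1 - δ) * r) * J ≤ 2 * r * J := by
      have : 0 ≤ δ * r * J := by positivity
      nlinarith
    unfold cc
    rw [← hJ]
    linarith
  obtain ⟨hb1, hb2⟩ := trace_zeros (U2 := B) hF hU ((1 - δ) * (r * Real.log T)) (fun _ _ => 0) (by
    intro v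
    simp only [zero_mul, Finset.sum_const_zero]
    exact Finset.sum_nonneg fun x _ => by positivity)
  rw [YT_zero] at hb1 hb2
  have hNl : M * (1 - 7 * η) ≤ NN F A B := by linarith
  have hNu : (NN F A B : ℝ) ≤ M * (1 + 7 * η) := by linarith
  have hN0 : (0 : ℝ) ≤ NN F A B := Nat.cast_nonneg _
  constructor
  · by_cases hc : 2 - cc r - ε ≤ 0
    · have h1 : (0 : ℝ) ≤ Ns F A B := Nat.cast_nonneg _
      have h2 : (2 - cc r - ε) * (NN F A B : ℝ) ≤ 0 := mul_nonpos_of_nonpos_of_nonneg hc hN0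
      linarith
    · push Not at hc
      have h3 : (2 - cc r - ε) * (NN F A B : ℝ) ≤ (2 - cc r - ε) * (M * (1 + 7 * η)) :=
        mul_le_mul_of_nonneg_left hNu hc.le
      have h4 : (2 - cc r - ε) * (M * (1 + 7 * η)) ≤ M * (2 - cc r - ε + 14 * η) := by
        have : (2 - cc r - ε) * (7 * η) ≤ 2 * (7 * η) :=
          mul_le_mul_of_nonneg_right (by linarith) (by positivity)
        nlinarith
      have h5 : M * (2 - cc r - ε + 14 * η) ≤ M * (2 * (1 - 7 * η) - (cc r + ε / 4 + η)) :=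
        mul_le_mul_of_nonneg_left (by linarith) hM0.le
      nlinarith
  · by_cases hc : (3 - cc r) / 2 - ε ≤ 0
    · have h1 : (0 : ℝ) ≤ Nd F A B := Nat.cast_nonneg _
      have h2 : ((3 - cc r) / 2 - ε) * (NN F A B : ℝ) ≤ 0 := mul_nonpos_of_nonpos_of_nonneg hc hN0
      linarith
    · push Not at hc
      have h3 : ((3 - cc r) / 2 - ε) * (NN F A B : ℝ) ≤ ((3 - cc r) / 2 - ε) * (M * (1 + 7 * η)) :=
        mul_le_mul_of_nonneg_left hNu hc.le
      have h4 : ((3 - cc r) / 2 - ε) * (M * (1 + 7 * η)) ≤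
          M * ((3 - cc r) / 2 - ε + 14 * η) := by
        have : ((3 - cc r) / 2 - ε) * (7 * η) ≤ 2 * (7 * η) :=
          mul_le_mul_of_nonneg_right (by linarith) (by positivity)
        nlinarith
      have h5 : M * ((3 - cc r) / 2 - ε + 14 * η) ≤
          M * ((3 * (1 - 7 * η) - (cc r + ε / 4 + η)) / 2) :=
        mul_le_mul_of_nonneg_left (by linarith) hM0.le
      nlinarith

end H370.SI
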