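import Pool.Agent.H345R2.SI.Count

/-! Short intervals: the outer region. -/

open Complex Filter Topology Set MeasureTheory
open scoped BigOperators ComplexConjugate

namespace H370.SI

section zeros

variable {F : ℂ → ℂ} (hF : GoodL F)

include hF in
lemma Zg_right' {a b t : ℝ} (hU : 1 ≤ a) (ht : b ≤ t) :
    Zg F a b t ≤ (NN F a b : ℝ) * Real.exp (-(b - t) ^ 2 / 2) := by
  rw [NN_eq hF hU, Nat.cast_sum, Finset.sum_mul]
  unfold Zg
  refine Finset.sum_le_sum fun s hs => ?_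
  have h1 := ((mem_Zf hF hU).mp hs).2.2.2.1
  gcongr _ * Real.exp ?_
  nlinarith

include hF in
/-- outer region, mean square -/
lemma outer_sq : ∃ C T1 : ℝ, 0 < C ∧ 4 ≤ T1 ∧ ∀ T : ℝ, T1 ≤ T → ∀ a b : ℝ, T ≤ a →
    b ≤ 2 * T → ∀ u : ℝ, 0 ≤ u →
    ∫ t in (Set.Icc (a + Real.log T) (b - Real.log T))ᶜ, ‖AA F a b u t‖ ^ 2 ≤
      C * Real.exp u * (Real.log T) ^ 3 := by
  obtain ⟨C1, hC1, hZ⟩ := Zg_le hF
  obtain ⟨C2, hC2, hN⟩ := NN_crude hF
  -- need `T^2 L^2 exp(-L^2/2) ≤ 1` for large T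
  have hlim : ∀ᶠ T : ℝ in atTop, T ^ 2 * Real.exp (-(Real.log T) ^ 2 / 2) ≤ 1 := by
    have h4 : ∀ᶠ T : ℝ in atTop, 4 ≤ Real.log T := Real.tendsto_log_atTop.eventually_ge_atTop 4
    filter_upwards [h4, eventually_gt_atTop 0] with T hT hT0
    have : T ^ 2 = Real.exp (2 * Real.log T) := by
      rw [mul_comm, Real.exp_mul, Real.exp_log hT0]; norm_cast
    rw [this, ← Real.exp_add]
    apply Real.exp_le_one_iff.mpr
    nlinarith
  obtain ⟨T2, hT2⟩ := (hlim.and (Real.tendsto_log_atTop.eventually_ge_atTop 1)).exists_forall_of_atTop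
  refine ⟨4 * (4 * C1 ^ 2 + C2 ^ 2 * (2 * Real.sqrt (2 * Real.pi))), max T2 4, by positivity,
    le_max_right _ _, fun T hT a b hU1 hU2 u hu => ?_⟩
  have hTa := (hT2 T ((le_max_left _ _).trans hT)).1
  have hL1 := (hT2 T ((le_max_left _ _).trans hT)).2
  have hT4 : 4 ≤ T := (le_max_right _ _).trans hT
  have hU : 1 ≤ a := by linarith
  set L := Real.log T with hL
  set N : ℝ := (NN F a b : ℝ) with hNdef
  have hN0 : 0 ≤ N := by positivity
  have hNle : N ≤ C2 * (T * L) := hN T hT4 a b hU1 hU2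
  set Ψ : ℝ → ℝ := fun t => 4 * Real.exp u * ((C1 * L) ^ 2 *
    ((Set.Icc (a - L) (a + L)).indicator (fun _ => (1 : ℝ)) t +
      (Set.Icc (b - L) (b + L)).indicator (fun _ => (1 : ℝ)) t) +
    N ^ 2 * Real.exp (-L ^ 2 / 2) *
      (Real.exp (-(a - t) ^ 2 / 2) + Real.exp (-(b - t) ^ 2 / 2))) with hΨ
  have hind : ∀ x y : ℝ, Integrable ((Set.Icc x y).indicator (fun _ => (1 : ℝ))) := by
    intro x y
    rw [integrable_indicator_iff measurableSet_Icc]
    exact integrableOn_const (by simp)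
  have hΨint : Integrable Ψ := by
    simp only [hΨ]
    refine Integrable.const_mul ?_ _
    refine Integrable.add ?_ ?_
    · exact ((hind _ _).add (hind _ _)).const_mul _
    · exact ((gauss_real_int _).add (gauss_real_int _)).const_mul _
  have hΨ0 : ∀ t, 0 ≤ Ψ t := by
    intro t
    simp only [hΨ]
    have e1 : 0 ≤ (Set.Icc (a - L) (a + L)).indicator (fun _ => (1 : ℝ)) t :=
      Set.indicator_nonneg (fun _ _ => zero_le_one) _
    have e2 : 0 ≤ (Set.Icc (b - L) (b + L)).indicator (fun _ => (1 : ℝ)) t :=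
      Set.indicator_nonneg (fun _ _ => zero_le_one) _
    positivity
  have hpt : ∀ t ∈ (Set.Icc (a + L) (b - L))ᶜ, ‖AA F a b u t‖ ^ 2 ≤ Ψ t := by
    intro t ht
    have e1 : 0 ≤ (Set.Icc (a - L) (a + L)).indicator (fun _ => (1 : ℝ)) t :=
      Set.indicator_nonneg (fun _ _ => zero_le_one) _
    have e2 : 0 ≤ (Set.Icc (b - L) (b + L)).indicator (fun _ => (1 : ℝ)) t :=
      Set.indicator_nonneg (fun _ _ => zero_le_one) _
    have h1 := AA_le_Zg hF (U2 := b) hU u t hu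
    have hZ0 := Zg_nonneg F a b t
    have h2 : ‖AA F a b u t‖ ^ 2 ≤ 4 * Real.exp u * (Zg F a b t) ^ 2 := by
      calc ‖AA F a b u t‖ ^ 2 ≤ (2 * Real.exp (u / 2) * Zg F a b t) ^ 2 := by gcongr
        _ = 4 * (Real.exp (u / 2)) ^ 2 * (Zg F a b t) ^ 2 := by ring
        _ = _ := by
          congr 2
          rw [← Real.exp_nat_mul]; congr 1; push_cast; ring
    refine h2.trans ?_
    simp only [hΨ]
    gcongr
    -- cases
    have hcase : (t ∈ Set.Icc (a - L) (a + L) ∨ t ∈ Set.Icc (b - L) (b + L)) ∨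
        t < a - L ∨ b + L < t := by
      by_contra hcon
      push Not at hcon
      obtain ⟨⟨h3, h4⟩, h5, h6⟩ := hcon
      apply ht
      rw [Set.mem_Icc, not_and_or, not_le, not_le] at h3 h4
      rw [Set.mem_Icc]
      rcases h3 with h3 | h3
      · linarith
      · rcases h4 with h4 | h4
        · exact ⟨h3.le, h4.le⟩
        · linarith
    have hE : 0 ≤ N ^ 2 * Real.exp (-L ^ 2 / 2) *
      (Real.exp (-(a - t) ^ 2 / 2) + Real.exp (-(b - t) ^ 2 / 2)) := by positivity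
    rcases hcase with h3 | h3 | h3
    · have h4 : 1 ≤ (Set.Icc (a - L) (a + L)).indicator (fun _ => (1 : ℝ)) t +
          (Set.Icc (b - L) (b + L)).indicator (fun _ => (1 : ℝ)) t := by
        rcases h3 with h3 | h3
        · rw [Set.indicator_of_mem h3]; linarith
        · rw [Set.indicator_of_mem h3]; linarith
      have h5 : (Zg F a b t) ^ 2 ≤ (C1 * L) ^ 2 := by
        have := hZ T hT4 a b hU1 hU2 t
        gcongr
      have h6 : (C1 * L) ^ 2 * 1 ≤ (C1 * L) ^ 2 *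
          ((Set.Icc (a - L) (a + L)).indicator (fun _ => (1 : ℝ)) t +
          (Set.Icc (b - L) (b + L)).indicator (fun _ => (1 : ℝ)) t) := by gcongr
      linarith
    · have h4 := Zg_left hF (U2 := b) hU le_rfl (show t ≤ a by linarith)
      have h5 : (Zg F a b t) ^ 2 ≤ N ^ 2 * Real.exp (-L ^ 2 / 2) *
          Real.exp (-(a - t) ^ 2 / 2) := by
        calc (Zg F a b t) ^ 2 ≤ (N * Real.exp (-(a - t) ^ 2 / 2)) ^ 2 := by gcongr
          _ = N ^ 2 * Real.exp (-(a - t) ^ 2 / 2) * Real.exp (-(a - t) ^ 2 / 2) := by ring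
          _ ≤ _ := by
            gcongr _ * Real.exp ?_ * _
            nlinarith
      have h6 : 0 ≤ (C1 * L) ^ 2 * ((Set.Icc (a - L) (a + L)).indicator (fun _ => (1 : ℝ)) t +
          (Set.Icc (b - L) (b + L)).indicator (fun _ => (1 : ℝ)) t) := by positivity
      have h7 : 0 ≤ N ^ 2 * Real.exp (-L ^ 2 / 2) * Real.exp (-(b - t) ^ 2 / 2) := by
        positivity
      linarith
    · have h4 := Zg_right' hF (b := b) hU (show b ≤ t by linarith)
      have h5 : (Zg F a b t) ^ 2 ≤ N ^ 2 * Real.exp (-L ^ 2 / 2) *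
          Real.exp (-(b - t) ^ 2 / 2) := by
        calc (Zg F a b t) ^ 2 ≤ (N * Real.exp (-(b - t) ^ 2 / 2)) ^ 2 := by gcongr
          _ = N ^ 2 * Real.exp (-(b - t) ^ 2 / 2) * Real.exp (-(b - t) ^ 2 / 2) := by ring
          _ ≤ _ := by
            gcongr _ * Real.exp ?_ * _
            nlinarith
      have h6 : 0 ≤ (C1 * L) ^ 2 * ((Set.Icc (a - L) (a + L)).indicator (fun _ => (1 : ℝ)) t +
          (Set.Icc (b - L) (b + L)).indicator (fun _ => (1 : ℝ)) t) := by positivity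
      have h7 : 0 ≤ N ^ 2 * Real.exp (-L ^ 2 / 2) * Real.exp (-(a - t) ^ 2 / 2) := by
        positivity
      linarith
  have hstep1 : ∫ t in (Set.Icc (a + L) (b - L))ᶜ, ‖AA F a b u t‖ ^ 2 ≤
      ∫ t in (Set.Icc (a + L) (b - L))ᶜ, Ψ t :=
    setIntegral_mono_on (AA_sq_int hF hU u).integrableOn hΨint.integrableOn
      measurableSet_Icc.compl hpt
  have hstep2 : ∫ t in (Set.Icc (a + L) (b - L))ᶜ, Ψ t ≤ ∫ t, Ψ t :=
    setIntegral_le_integral hΨint (Eventually.of_forall hΨ0)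
  have hstep3 : ∫ t, Ψ t = 4 * Real.exp u * ((C1 * L) ^ 2 * (4 * L) +
      N ^ 2 * Real.exp (-L ^ 2 / 2) * (2 * Real.sqrt (2 * Real.pi))) := by
    simp only [hΨ]
    rw [integral_const_mul, integral_add, integral_const_mul, integral_const_mul, integral_add,
      integral_add, gauss_real, gauss_real, integral_indicator measurableSet_Icc,
      integral_indicator measurableSet_Icc]
    · simp only [integral_const, MeasurableSet.univ, measureReal_restrict_apply, Set.univ_inter,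
        Real.volume_real_Icc, smul_eq_mul, mul_one]
      rw [max_eq_left (by linarith), max_eq_left (by linarith)]
      ring
    · exact gauss_real_int _
    · exact gauss_real_int _
    · exact hind _ _
    · exact hind _ _
    · exact ((hind _ _).add (hind _ _)).const_mul _
    · exact ((gauss_real_int _).add (gauss_real_int _)).const_mul _
  refine (hstep1.trans hstep2).trans ?_
  rw [hstep3]
  have hN2 : N ^ 2 * Real.exp (-L ^ 2 / 2) ≤ C2 ^ 2 * L ^ 2 := by
    calc N ^ 2 * Real.exp (-L ^ 2 / 2) ≤ (C2 * (T * L)) ^ 2 * Real.exp (-L ^ 2 / 2) := by gcongr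
      _ = C2 ^ 2 * L ^ 2 * (T ^ 2 * Real.exp (-L ^ 2 / 2)) := by ring
      _ ≤ C2 ^ 2 * L ^ 2 * 1 := by gcongr
      _ = _ := by ring
  have hL3 : L ^ 2 ≤ L ^ 3 := by nlinarith [sq_nonneg L]
  have hs0 : 0 ≤ Real.sqrt (2 * Real.pi) := Real.sqrt_nonneg _
  calc 4 * Real.exp u * ((C1 * L) ^ 2 * (4 * L) +
      N ^ 2 * Real.exp (-L ^ 2 / 2) * (2 * Real.sqrt (2 * Real.pi))) ≤
      4 * Real.exp u * ((C1 * L) ^ 2 * (4 * L) +
      (C2 ^ 2 * L ^ 2) * (2 * Real.sqrt (2 * Real.pi))) := by gcongr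
    _ ≤ 4 * Real.exp u * ((C1 * L) ^ 2 * (4 * L) +
      (C2 ^ 2 * L ^ 3) * (2 * Real.sqrt (2 * Real.pi))) := by gcongr
    _ = _ := by ring

end zeros

end H370.SI
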