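import Pool.Agent.H345R2.SI.JJ

/-! Short intervals: pair correlation. -/

open Complex Filter Topology Set MeasureTheory
open scoped BigOperators ComplexConjugate

namespace H370.SI

theorem pair_short {F : ℂ → ℂ} (hF : GoodL F) (r ε η : ℝ) (hr : 0 < r) (hr1 : r ≤ 1)
    (hε : 0 < ε) (hε1 : ε < 1 / 2)
    (hη : 0 < η) : ∃ T0 : ℝ, 10 ≤ T0 ∧ ∀ T : ℝ, T0 ≤ T →
    ∀ A B : ℝ, T + 1 ≤ A → B ≤ 2 * T - 1 → T ^ r ≤ B - A →
      |(NN F A B : ℝ) - (B - A) * Real.log T / (2 * Real.pi)| ≤ η * ((B - A) * Real.log T) ∧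
      QQ F ((1 - ε) * (r * Real.log T)) A B ≤ ((B - A) * Real.log T / (2 * Real.pi)) *
        (Rf 0 / ((1 - ε) * r) + 2 * ((1 - ε) * r) * (∫ α in (0 : ℝ)..1, α * Rf α) + η) := by
  set I1 := ∫ α in (0 : ℝ)..1, α * Rf α with hI1
  have hI10 : 0 ≤ I1 := intervalIntegral.integral_nonneg zero_le_one fun α hα =>
    mul_nonneg hα.1 (Rf_nonneg α)
  have hR0 : 0 ≤ Rf 0 := Rf_nonneg 0
  have hε2' : 0 < 1 - ε := by linarith
  set lam : ℝ := (1 - ε) * r with hlam
  have hε2 : 0 < lam := mul_pos hε2' hr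
  have hlam1 : lam ≤ 1 := by rw [hlam]; nlinarith
  set Q0 := Rf 0 / lam + 2 * lam * I1 with hQ0
  have hQ00 : 0 ≤ Q0 := by positivity
  -- choose η'
  set θ : ℝ := min 1 (η / (14 * (Q0 + 1))) with hθ
  have hθ0 : 0 < θ := lt_min one_pos (by positivity)
  have hθ1 : θ ≤ 1 := min_le_left _ _
  have hθ2 : 7 * θ * Q0 ≤ η / 2 := by
    have h1 : θ ≤ η / (14 * (Q0 + 1)) := min_le_right _ _
    rw [le_div_iff₀ (by positivity)] at h1
    nlinarith
  obtain ⟨K1, K2, T0, hK1, hK2, hT0, hJ⟩ := JJ_short hF r ε θ hr hr1 hε hε1 hθ0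
  obtain ⟨C4, hC4, ha3'⟩ := a3_aux
  obtain ⟨C5, hC5, hNN⟩ := nn_short hF
  -- the constant K5
  set spi := Real.sqrt Real.pi with hspi
  have hspi0 : 0 < spi := Real.sqrt_pos.mpr Real.pi_pos
  set K5 : ℝ := 2 / spi * ((1 + θ) / (2 * Real.pi) * (K1 * (Rf 0 * (Real.exp 4 * spi)) / lam +
    (1 + θ) ^ 2 * C4) + K2 * Rf 0) with hK5
  have hK50 : 0 ≤ K5 := by positivity
  have evL : ∀ᶠ T : ℝ in atTop, 4 * Real.pi * K5 / η ≤ Real.log T ∧ 2 * C5 / η ≤ Real.log T ∧
      1 / lam ≤ Real.log T :=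
    (Real.tendsto_log_atTop.eventually_ge_atTop _).and
      ((Real.tendsto_log_atTop.eventually_ge_atTop _).and
        (Real.tendsto_log_atTop.eventually_ge_atTop _))
  have ev4 : ∀ᶠ T : ℝ in atTop, (Real.log T) ^ 2 ≤ T ^ r ∧ 3 ≤ T ^ r := by
    have h1 : (fun T : ℝ => (Real.log T) ^ 2) =o[atTop] fun T : ℝ => T ^ r :=
      (isLittleO_log_rpow_atTop (r := r / 2) (by positivity)).pow (by norm_num : 0 < 2) |>.trans_eventuallyEq
        (by
          filter_upwards [eventually_gt_atTop 0] with T hT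
          rw [← Real.rpow_natCast, ← Real.rpow_mul hT.le]
          congr 1
          push_cast
          ring)
    have h3 := h1.bound (show (0 : ℝ) < 1 by norm_num)
    filter_upwards [h3, eventually_ge_atTop 1, (tendsto_rpow_atTop hr).eventually_ge_atTop 3]
      with T hT hT1 hT3
    rw [Real.norm_of_nonneg (by positivity), Real.norm_of_nonneg (by positivity), one_mul] at hT
    exact ⟨hT, hT3⟩
  obtain ⟨T6, hT6⟩ := (evL.and ev4).exists_forall_of_atTop
  refine ⟨max T0 T6, hT0.trans (le_max_left _ _), fun T hT => ?_⟩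
  have hTT0 : T0 ≤ T := (le_max_left _ _).trans hT
  obtain ⟨⟨hL5, hL6, hL2⟩, hL7, hL8⟩ := hT6 T ((le_max_right _ _).trans hT)
  intro A B hA hB hAB
  have hJb := hJ T hTT0 A B hA hB hAB
  have hT10 : 10 ≤ T := hT0.trans hTT0
  have hTpos : 0 < T := by linarith
  have hU : 1 ≤ A := by linarith
  set L := Real.log T with hL
  set H : ℝ := B - A with hHdef
  have hH0 : 0 < H := by linarith
  have hLpos : 0 < L := lt_of_lt_of_le (by positivity) hL2
  refine ⟨?_, ?_⟩
  · refine (hNN T hT10 A B (by linarith) (by linarith) (by linarith)).trans ?_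
    rw [div_le_iff₀ hη] at hL6
    have h1 : (B - A) + L ^ 2 ≤ 2 * H := by linarith
    calc C5 * (B - A + L ^ 2) ≤ C5 * (2 * H) := mul_le_mul_of_nonneg_left h1 hC5.le
      _ = (2 * C5) * H := by ring
      _ ≤ (L * η) * H := mul_le_mul_of_nonneg_right hL6 hH0.le
      _ = η * (H * L) := by ring
  · rw [show (1 - ε) * (r * L) = lam * L by rw [hlam]; ring]
    set Λ := lam * L with hΛ
    have hΛ1 : 1 ≤ Λ := by
      rw [div_le_iff₀ hε2] at hL2
      rw [hΛ]; linarith
    have hΛ0 : 0 < Λ := by linarith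
    rw [QQ_JJ hF hU Λ]
    -- bound the integral
    have hRc := Rf_cont
    have hVc : ContinuousOn (fun α : ℝ => VV (Λ * α)) (Set.uIcc 0 1) := by
      refine (VV_cont Λ).comp (by fun_prop) ?_
      intro α hα
      rw [Set.uIcc_of_le zero_le_one] at hα
      simp only [Set.mem_Iic]
      nlinarith [hα.2]
    have hint1 : IntervalIntegrable (fun α : ℝ => Rf α * Real.exp (-(Λ * α) ^ 2)) volume 0 1 :=
      (by fun_prop : Continuous fun α : ℝ => Rf α * Real.exp (-(Λ * α) ^ 2)).intervalIntegrable _ _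
    have hint2 : IntervalIntegrable (fun α : ℝ => Rf α * Real.exp (2 * (Λ * α) - (Λ * α) ^ 2 / 2))
        volume 0 1 :=
      (by fun_prop : Continuous fun α : ℝ =>
        Rf α * Real.exp (2 * (Λ * α) - (Λ * α) ^ 2 / 2)).intervalIntegrable _ _
    have hint3 : IntervalIntegrable (fun α : ℝ => Rf α * VV (Λ * α)) volume 0 1 :=
      (hRc.continuousOn.mul hVc).intervalIntegrable
    have hint4 : IntervalIntegrable Rf volume 0 1 := hRc.intervalIntegrable _ _
    have hb : ∫ α in (0 : ℝ)..1, Rf α * JJ F A B (Λ * α) ≤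
        ∫ α in (0 : ℝ)..1, ((1 + θ) / (2 * Real.pi) * (H * L ^ 2) * (Rf α * Real.exp (-(Λ * α) ^ 2)) +
          (1 + θ) / (2 * Real.pi) * (K1 * (H * L)) *
            (Rf α * Real.exp (2 * (Λ * α) - (Λ * α) ^ 2 / 2)) +
          (1 + θ) / (2 * Real.pi) * ((1 + θ) ^ 2 * H) * (Rf α * VV (Λ * α)) + K2 * H * Rf α) := by
      refine intervalIntegral.integral_mono_on zero_le_one ?_ ?_ fun α hα => ?_
      · exact (hRc.mul ((JJ_cont hF hU).comp (by fun_prop))).intervalIntegrable _ _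
      · exact (((hint1.const_mul _).add (hint2.const_mul _)).add (hint3.const_mul _)).add
          (hint4.const_mul _)
      · have h1 := hJb (Λ * α) (by have := hα.1; positivity) (by
          calc Λ * α ≤ Λ * 1 := by gcongr; exact hα.2
            _ = (1 - ε) * (r * L) := by rw [hΛ, hlam]; ring)
        have h2 := mul_le_mul_of_nonneg_left h1 (Rf_nonneg α)
        refine h2.trans (le_of_eq ?_)
        ring
    have hsplit : ∫ α in (0 : ℝ)..1, ((1 + θ) / (2 * Real.pi) * (H * L ^ 2) *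
          (Rf α * Real.exp (-(Λ * α) ^ 2)) +
          (1 + θ) / (2 * Real.pi) * (K1 * (H * L)) *
            (Rf α * Real.exp (2 * (Λ * α) - (Λ * α) ^ 2 / 2)) +
          (1 + θ) / (2 * Real.pi) * ((1 + θ) ^ 2 * H) * (Rf α * VV (Λ * α)) + K2 * H * Rf α) =
        (1 + θ) / (2 * Real.pi) * (H * L ^ 2) * (∫ α in (0 : ℝ)..1, Rf α * Real.exp (-(Λ * α) ^ 2)) +
          (1 + θ) / (2 * Real.pi) * (K1 * (H * L)) *
            (∫ α in (0 : ℝ)..1, Rf α * Real.exp (2 * (Λ * α) - (Λ * α) ^ 2 / 2)) +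
          (1 + θ) / (2 * Real.pi) * ((1 + θ) ^ 2 * H) * (∫ α in (0 : ℝ)..1, Rf α * VV (Λ * α)) +
          K2 * H * ∫ α in (0 : ℝ)..1, Rf α := by
      rw [intervalIntegral.integral_add (((hint1.const_mul _).add (hint2.const_mul _)).add
          (hint3.const_mul _)) (hint4.const_mul _),
        intervalIntegral.integral_add ((hint1.const_mul _).add (hint2.const_mul _))
          (hint3.const_mul _),
        intervalIntegral.integral_add (hint1.const_mul _) (hint2.const_mul _),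
        intervalIntegral.integral_const_mul, intervalIntegral.integral_const_mul,
        intervalIntegral.integral_const_mul, intervalIntegral.integral_const_mul]
    -- individual bounds
    have ha1 := a1_aux Λ hΛ0
    have ha2 := a2_aux Λ hΛ0
    have ha3 := ha3' Λ hΛ1
    have ha4 : ∫ α in (0 : ℝ)..1, Rf α ≤ Rf 0 := by
      calc ∫ α in (0 : ℝ)..1, Rf α ≤ ∫ α in (0 : ℝ)..1, Rf 0 := by
            refine intervalIntegral.integral_mono_on zero_le_one hint4
              (continuous_const.intervalIntegrable _ _) fun α hα => Rf_le α hα.1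
        _ = Rf 0 := by simp
    have hθp : 0 ≤ (1 + θ) / (2 * Real.pi) := by positivity
    have hLΛ : L / Λ = 1 / lam := by
      rw [hΛ]; field_simp
    have htot : 2 / spi * ∫ α in (0 : ℝ)..1, Rf α * JJ F A B (Λ * α) ≤
        2 / spi * ((1 + θ) / (2 * Real.pi) * (H * L ^ 2) * (Rf 0 * (spi / (2 * Λ))) +
          (1 + θ) / (2 * Real.pi) * (K1 * (H * L)) * (Rf 0 * (Real.exp 4 * spi) / Λ) +
          (1 + θ) / (2 * Real.pi) * ((1 + θ) ^ 2 * H) * (spi * Λ * I1 + C4) +
          K2 * H * Rf 0) := by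
      refine mul_le_mul_of_nonneg_left ?_ (by positivity)
      refine hb.trans ?_
      rw [hsplit]
      gcongr
    refine htot.trans ?_
    -- algebra
    have halg : 2 / spi * ((1 + θ) / (2 * Real.pi) * (H * L ^ 2) * (Rf 0 * (spi / (2 * Λ))) +
          (1 + θ) / (2 * Real.pi) * (K1 * (H * L)) * (Rf 0 * (Real.exp 4 * spi) / Λ) +
          (1 + θ) / (2 * Real.pi) * ((1 + θ) ^ 2 * H) * (spi * Λ * I1 + C4) +
          K2 * H * Rf 0) =
        (H * L / (2 * Real.pi)) * ((1 + θ) * (Rf 0 / lam) +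
          (1 + θ) ^ 3 * (2 * lam * I1)) + H * K5 := by
      rw [hK5, hΛ]
      field_simp
      ring
    rw [halg]
    have hcube : (1 + θ) ^ 3 ≤ 1 + 7 * θ := cube_aux θ hθ0.le hθ1
    have h1 : (1 + θ) * (Rf 0 / lam) + (1 + θ) ^ 3 * (2 * lam * I1) ≤
        (1 + 7 * θ) * Q0 := by
      rw [hQ0, mul_add]
      have e1 : 0 ≤ Rf 0 / lam := by positivity
      have e2 : 0 ≤ 2 * lam * I1 := by positivity
      gcongr
      linarith
    have h2 : H * K5 ≤ (H * L / (2 * Real.pi)) * (η / 2) := by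
      rw [div_le_iff₀ hη] at hL5
      have e3 : (H * L / (2 * Real.pi)) * (η / 2) = H * (L * η) / (4 * Real.pi) := by
        field_simp; ring
      rw [e3, le_div_iff₀ (by positivity)]
      nlinarith
    have h3 : 0 ≤ H * L / (2 * Real.pi) := by positivity
    calc (H * L / (2 * Real.pi)) * ((1 + θ) * (Rf 0 / lam) +
          (1 + θ) ^ 3 * (2 * lam * I1)) + H * K5 ≤
        (H * L / (2 * Real.pi)) * ((1 + 7 * θ) * Q0) + (H * L / (2 * Real.pi)) * (η / 2) := by
          gcongr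
      _ = (H * L / (2 * Real.pi)) * (Q0 + 7 * θ * Q0 + η / 2) := by ring
      _ ≤ (H * L / (2 * Real.pi)) * (Q0 + η) := by
          refine mul_le_mul_of_nonneg_left ?_ h3
          linarith only [hθ2]

end H370.SI
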